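import Mathlib
import Pool.Agent.Helper704.RB.E

open Finset MeasureTheory Filter Topology

namespace Pool.Agent.Y259.Rad

open Pool.Agent.Helper704.RadBall

variable {n : ℕ}

/-- Bounded holomorphic function on the ball whose increments along a fixed increasing sequence of
radii are non-summable in almost every direction. -/
theorem incr_main (hn : 1 < n) (μ : Measure (Metric.sphere (0 : EuclideanSpace ℂ (Fin n)) 1))
    [IsFiniteMeasure μ] :
    ∃ F : EuclideanSpace ℂ (Fin n) → ℂ, DifferentiableOn ℂ F (Metric.ball 0 1) ∧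
      (∀ z ∈ Metric.ball (0 : EuclideanSpace ℂ (Fin n)) 1, ‖F z‖ ≤ 1) ∧
      ∃ r : ℕ → ℝ, Monotone r ∧ (∀ k, 0 ≤ r k) ∧ (∀ k, r k < 1) ∧
      ∀ᵐ ζ ∂μ, ∀ C : ℝ, ∃ m, C < ∑ k ∈ range m,
        ‖F ((r (k+1) : ℂ) • ζ.1) - F ((r k : ℂ) • ζ.1)‖ := by
  obtain ⟨δ0, c1, hδ0, hc1, hnext⟩ := exists_next n
  obtain ⟨s0, hs0f, hs0S⟩ := init_state n
  obtain ⟨u, hu0, hu⟩ := exists_seq (fun k s s' => Rel μ δ0 c1 k s s') (hnext μ) s0
  have hdiv := ae_div hδ0 hc1 μ u hu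
  have : Nonempty (Fin n) := ⟨⟨0, by omega⟩⟩
  set P : ℕ → EuclideanSpace ℂ (Fin n) → ℂ := fun k z => (u (k+1)).f z - (u k).f z with hP
  set r : ℕ → ℝ := fun k => (u (k+1)).ρ with hr
  have hrmono : Monotone r := monotone_nat_of_le_succ (fun k => (hu (k+1)).2.1)
  have hr0 : ∀ k, 0 ≤ r k := fun k => (u (k+1)).hρ
  have hr1 : ∀ k, r k < 1 := fun k => (u (k+1)).hρ1
  have hrlow : ∀ k, 1 - (1/2) ^ k ≤ r k := fun k => (hu k).2.2.1
  have hPd : ∀ k, Differentiable ℂ (P k) := fun k => (u (k+1)).hf.sub (u k).hf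
  have hPb : ∀ k z, ‖z‖ ≤ r k → ∀ j, k ≤ j → ‖P j z‖ ≤ (1/2) ^ j := by
    intro k z hz j hj
    exact (hu j).2.2.2.2.1 z (hz.trans (hrmono hj))
  have hfk : ∀ k z, (u k).f z = ∑ j ∈ range k, P j z := by
    intro k z
    rw [Finset.sum_range_sub (fun k => (u k).f z), hu0, hs0f, sub_zero]
  have hSk : ∀ k z, (u k).S z = ∑ j ∈ range k, ‖P j z‖ := by
    intro k z
    induction k with
    | zero => rw [hu0, hs0S]; simp
    | succ k ih => rw [Finset.sum_range_succ, ← ih]; exact (hu k).1 z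
  have hsm : ∀ k z, ‖z‖ ≤ r k → Summable (fun j => P (j + k) z) := by
    intro k z hz
    exact Summable.of_norm_bounded (geom_sum k).summable (fun j => hPb k z hz _ (Nat.le_add_left _ _))
  have hsm0 : ∀ k z, ‖z‖ ≤ r k → Summable (fun j => P j z) := fun k z hz =>
    (summable_nat_add_iff k).mp (hsm k z hz)
  set F : EuclideanSpace ℂ (Fin n) → ℂ := fun z => ∑' j, P j z with hF
  have hFk : ∀ k z, ‖z‖ ≤ r k → F z = (u k).f z + ∑' j, P (j + k) z := by
    intro k z hz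
    rw [hfk k z]
    exact ((hsm0 k z hz).sum_add_tsum_nat_add k).symm
  have hFkb : ∀ k z, ‖z‖ ≤ r k → ‖F z - (u k).f z‖ ≤ 2 * (1/2) ^ k := by
    intro k z hz
    rw [hFk k z hz, add_sub_cancel_left]
    exact tsum_of_norm_bounded (geom_sum k) (fun j => hPb k z hz _ (Nat.le_add_left _ _))
  have hex : ∀ z : EuclideanSpace ℂ (Fin n), ‖z‖ < 1 → ∃ k0, ∀ k, k0 ≤ k → ‖z‖ < r k := by
    intro z hz
    have ht : Tendsto (fun k : ℕ => (1/2 : ℝ) ^ k) atTop (𝓝 0) :=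
      tendsto_pow_atTop_nhds_zero_of_lt_one (by norm_num) (by norm_num)
    obtain ⟨k0, hk0⟩ := (ht.eventually_lt_const (show (0:ℝ) < 1 - ‖z‖ by linarith)).exists
    refine ⟨k0, fun k hk => ?_⟩
    have h1 := hrlow k0
    have h2 := hrmono hk
    linarith
  -- bound
  have hfb : ∀ k z, ‖z‖ ≤ 1 → ‖(u k).f z‖ ≤ 1 := by
    intro k z hz
    apply Complex.norm_le_of_forall_mem_frontier_norm_le (U := Metric.ball (0 : EuclideanSpace ℂ (Fin n)) 1)
      Metric.isBounded_ball (u k).hf.diffContOnCl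
    · intro w hw
      rw [frontier_ball (0 : EuclideanSpace ℂ (Fin n)) one_ne_zero] at hw
      exact ((u k).hf1 w (by simpa using hw)).le
    · rw [closure_ball (0 : EuclideanSpace ℂ (Fin n)) one_ne_zero]
      simpa using hz
  have hFb : ∀ z ∈ Metric.ball (0 : EuclideanSpace ℂ (Fin n)) 1, ‖F z‖ ≤ 1 := by
    intro z hz
    rw [mem_ball_zero_iff] at hz
    obtain ⟨k0, hk0⟩ := hex z hz
    have ht : Tendsto (fun k : ℕ => 1 + 2 * (1/2 : ℝ) ^ k) atTop (𝓝 (1 + 2 * 0)) :=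
      ((tendsto_pow_atTop_nhds_zero_of_lt_one (by norm_num) (by norm_num)).const_mul 2).const_add 1
    rw [mul_zero, add_zero] at ht
    apply ge_of_tendsto ht
    filter_upwards [eventually_ge_atTop k0] with k hk
    have h1 := hFkb k z (hk0 k hk).le
    have h2 := hfb k z hz.le
    calc ‖F z‖ = ‖(u k).f z + (F z - (u k).f z)‖ := by rw [add_sub_cancel]
      _ ≤ ‖(u k).f z‖ + ‖F z - (u k).f z‖ := norm_add_le _ _
      _ ≤ 1 + 2 * (1/2) ^ k := by linarith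
  -- holomorphy
  have hFd : DifferentiableOn ℂ F (Metric.ball 0 1) := by
    intro z hz
    rw [mem_ball_zero_iff] at hz
    obtain ⟨k0, hk0⟩ := hex z hz
    have hzk := hk0 k0 le_rfl
    set s : ℝ := (‖z‖ + r k0) / 2 with hs
    have hzs : ‖z‖ < s := by rw [hs]; linarith
    have hsr : s < r k0 := by rw [hs]; linarith
    have hbd : ∀ j w, w ∈ Metric.ball (0 : EuclideanSpace ℂ (Fin n)) s →
        ‖fderiv ℂ (P (j + k0)) w‖ ≤ (2 * (1/2) ^ (j + k0)) / (r k0 - s) := by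
      intro j w hw
      rw [mem_ball_zero_iff] at hw
      apply Complex.norm_fderiv_le_div_of_mapsTo_ball (hPd _).differentiableOn _ (by linarith)
      intro y hy
      rw [Metric.mem_ball, dist_eq_norm] at hy
      rw [Metric.mem_closedBall, dist_eq_norm]
      have hy1 : ‖y‖ ≤ r k0 := by
        have := norm_sub_norm_le y w
        linarith
      have h1 := hPb k0 y hy1 (j + k0) (Nat.le_add_left _ _)
      have h2 := hPb k0 w (by linarith) (j + k0) (Nat.le_add_left _ _)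
      refine (norm_sub_le _ _).trans ?_
      linarith
    have hsumm : Summable (fun j : ℕ => (2 * (1/2 : ℝ) ^ (j + k0)) / (r k0 - s)) :=
      ((geom_sum k0).summable.mul_left 2).div_const _
    have htail : HasFDerivAt (fun y => ∑' j, P (j + k0) y) (∑' j, fderiv ℂ (P (j + k0)) z) z := by
      apply hasFDerivAt_tsum_of_isPreconnected hsumm Metric.isOpen_ball
        (convex_ball (0 : EuclideanSpace ℂ (Fin n)) s).isPreconnected
        (fun j w _ => (hPd (j + k0) w).hasFDerivAt) hbd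
      · exact Metric.mem_ball_self (by linarith [norm_nonneg z])
      · exact hsm k0 0 (by simpa using hr0 k0)
      · simpa using hzs
    have htot : DifferentiableAt ℂ (fun y => (u k0).f y + ∑' j, P (j + k0) y) z :=
      ((u k0).hf z).add htail.differentiableAt
    have heq : F =ᶠ[𝓝 z] (fun y => (u k0).f y + ∑' j, P (j + k0) y) := by
      filter_upwards [Metric.isOpen_ball.mem_nhds (show z ∈ Metric.ball (0 : EuclideanSpace ℂ (Fin n)) s by simpa using hzs)]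
        with y hy
      rw [mem_ball_zero_iff] at hy
      exact hFk k0 y (by linarith)
    exact (htot.congr_of_eventuallyEq heq).differentiableWithinAt
  refine ⟨F, hFd, hFb, r, hrmono, hr0, hr1, ?_⟩
  filter_upwards [hdiv] with ζ hζd
  have hζ : ‖ζ.1‖ = 1 := by simp
  have hinc : ∀ k, ‖F ((r k : ℂ) • ζ.1) - (u k).f ζ.1‖ ≤ 3 * (1/2) ^ k := by
    intro k
    have hnr : ‖((r k : ℝ) : ℂ) • ζ.1‖ ≤ r k := by
      rw [norm_smul, hζ, mul_one, Complex.norm_real, Real.norm_eq_abs, abs_of_nonneg (hr0 k)]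
    have h1 := hFkb k _ hnr
    have h2 := (hu k).2.2.2.1 ζ.1 hζ
    calc ‖F ((r k : ℂ) • ζ.1) - (u k).f ζ.1‖ =
        ‖(F ((r k : ℂ) • ζ.1) - (u k).f ((r k : ℂ) • ζ.1)) + ((u k).f ((r k : ℂ) • ζ.1) - (u k).f ζ.1)‖ := by
          congr 1; ring
      _ ≤ ‖F ((r k : ℂ) • ζ.1) - (u k).f ((r k : ℂ) • ζ.1)‖ + ‖(u k).f ((r k : ℂ) • ζ.1) - (u k).f ζ.1‖ :=
          norm_add_le _ _
      _ ≤ 3 * (1/2) ^ k := by linarith
  have hinc2 : ∀ k, ‖P k ζ.1‖ - 5 * (1/2) ^ k ≤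
      ‖F ((r (k+1) : ℂ) • ζ.1) - F ((r k : ℂ) • ζ.1)‖ := by
    intro k
    have h1 := hinc k
    have h2 := hinc (k+1)
    have h3 : P k ζ.1 = (F ((r (k+1) : ℂ) • ζ.1) - F ((r k : ℂ) • ζ.1)) -
        (F ((r (k+1) : ℂ) • ζ.1) - (u (k+1)).f ζ.1) + (F ((r k : ℂ) • ζ.1) - (u k).f ζ.1) := by
      simp only [hP]; ring
    have h4 : ‖P k ζ.1‖ ≤ ‖F ((r (k+1) : ℂ) • ζ.1) - F ((r k : ℂ) • ζ.1)‖ +
        ‖F ((r (k+1) : ℂ) • ζ.1) - (u (k+1)).f ζ.1‖ + ‖F ((r k : ℂ) • ζ.1) - (u k).f ζ.1‖ := by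
      rw [h3]
      refine (norm_add_le _ _).trans ?_
      gcongr
      exact norm_sub_le _ _
    have h5 : (1/2 : ℝ) ^ (k+1) = (1/2) ^ k / 2 := by rw [pow_succ]; ring
    rw [h5] at h2
    have h6 : (0:ℝ) ≤ (1/2) ^ k := by positivity
    linarith
  intro C
  obtain ⟨N, hN⟩ := exists_nat_gt (C + 10)
  obtain ⟨m, hm⟩ := hζd N
  refine ⟨m, ?_⟩
  have h1 : ∑ k ∈ range m, (‖P k ζ.1‖ - 5 * (1/2) ^ k) ≤
      ∑ k ∈ range m, ‖F ((r (k+1) : ℂ) • ζ.1) - F ((r k : ℂ) • ζ.1)‖ :=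
    Finset.sum_le_sum (fun k _ => hinc2 k)
  rw [Finset.sum_sub_distrib, ← hSk m ζ.1, ← Finset.mul_sum] at h1
  have h2 : ∑ k ∈ range m, (1/2 : ℝ) ^ k ≤ 2 := by
    have := (geom_sum 0).summable.sum_le_tsum (range m) (fun _ _ => by positivity)
    rw [(geom_sum 0).tsum_eq] at this
    simpa using this
  linarith


end Pool.Agent.Y259.Rad
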