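import Mathlib
import Pool.Agent.Y259.Rad

open Finset MeasureTheory Filter Topology

namespace Pool.Agent.Y259.Rad

variable {n : ℕ}

/-- non-summable increments force infinite variation -/
lemma evar_top (g : ℝ → ℂ) (s : Set ℝ) (r : ℕ → ℝ) (hr : Monotone r) (hrs : ∀ k, r k ∈ s)
    (hdiv : ∀ C : ℝ, ∃ m, C < ∑ k ∈ range m, ‖g (r (k+1)) - g (r k)‖) :
    eVariationOn g s = ⊤ := by
  apply ENNReal.eq_top_of_forall_nnreal_le
  intro C
  obtain ⟨m, hm⟩ := hdiv C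
  have h1 := eVariationOn.sum_le (f := g) (s := s) (u := r) (n := m) hr hrs
  refine le_trans ?_ h1
  have h2 : (∑ i ∈ range m, edist (g (r (i + 1))) (g (r i))) =
      ENNReal.ofReal (∑ k ∈ range m, ‖g (r (k+1)) - g (r k)‖) := by
    rw [ENNReal.ofReal_sum_of_nonneg (fun _ _ => norm_nonneg _)]
    refine Finset.sum_congr rfl (fun k _ => ?_)
    rw [edist_dist, dist_eq_norm]
  rw [h2, ← ENNReal.ofReal_coe_nnreal]
  exact ENNReal.ofReal_le_ofReal hm.le

/-- normalisation to the sphere (with a junk value at the origin) -/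
noncomputable def dir (ζ0 : Metric.sphere (0 : EuclideanSpace ℂ (Fin n)) 1)
    (x : EuclideanSpace ℂ (Fin n)) : Metric.sphere (0 : EuclideanSpace ℂ (Fin n)) 1 := by
  classical
  exact if h : x = 0 then ζ0 else ⟨((‖x‖⁻¹ : ℝ) : ℂ) • x, by
    rw [mem_sphere_zero_iff_norm, norm_smul, Complex.norm_real, Real.norm_eq_abs,
      abs_of_nonneg (inv_nonneg.mpr (norm_nonneg _)), inv_mul_cancel₀ (norm_ne_zero_iff.mpr h)]⟩

lemma dir_coe (ζ0 : Metric.sphere (0 : EuclideanSpace ℂ (Fin n)) 1)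
    {x : EuclideanSpace ℂ (Fin n)} (h : x ≠ 0) :
    (dir ζ0 x : EuclideanSpace ℂ (Fin n)) = ((‖x‖⁻¹ : ℝ) : ℂ) • x := by
  simp [dir, h]

lemma measurable_dir (ζ0 : Metric.sphere (0 : EuclideanSpace ℂ (Fin n)) 1) :
    Measurable (dir ζ0) := by
  classical
  have h1 : Measurable (fun x : EuclideanSpace ℂ (Fin n) => (dir ζ0 x : EuclideanSpace ℂ (Fin n))) := by
    have h2 : (fun x : EuclideanSpace ℂ (Fin n) => (dir ζ0 x : EuclideanSpace ℂ (Fin n))) =
        fun x => if x = 0 then (ζ0 : EuclideanSpace ℂ (Fin n)) else ((‖x‖⁻¹ : ℝ) : ℂ) • x := by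
      ext1 x
      by_cases h : x = 0
      · simp [dir, h]
      · rw [if_neg h, dir_coe ζ0 h]
    rw [h2]
    apply Measurable.ite (measurableSet_eq) measurable_const
    exact (Complex.measurable_ofReal.comp measurable_norm.inv).smul measurable_id
  exact h1.subtype_mk

theorem frozen (n : ℕ) (hn : 2 ≤ n) :
      ∃ f : (Fin n → ℂ) → ℂ,
        DifferentiableOn ℂ f {z : Fin n → ℂ | ∑ i, ‖z i‖ ^ 2 < 1} ∧
        (∃ M : ℝ, ∀ z ∈ {z : Fin n → ℂ | ∑ i, ‖z i‖ ^ 2 < 1}, ‖f z‖ ≤ M) ∧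
        ∀ᵐ x ∂(volume : Measure (Fin n → ℂ)),
          eVariationOn
            (fun r : ℝ => f ((((r / Real.sqrt (∑ i, ‖x i‖ ^ 2) : ℝ)) : ℂ) • x))
            (Set.Ico (0 : ℝ) 1) = ⊤ := by
  have : Nonempty (Fin n) := ⟨⟨0, by omega⟩⟩
  obtain ⟨ζ0⟩ : Nonempty (Metric.sphere (0 : EuclideanSpace ℂ (Fin n)) 1) := by
    have := (NormedSpace.sphere_nonempty (E := EuclideanSpace ℂ (Fin n)) (x := 0) (r := 1)).mpr zero_le_one
    exact this.to_subtype
  let e : (Fin n → ℂ) → EuclideanSpace ℂ (Fin n) := fun x => WithLp.toLp 2 x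
  have he : Measurable e := (PiLp.continuous_toLp 2 _).measurable
  have hD : Measurable (fun x => dir ζ0 (e x)) := (measurable_dir ζ0).comp he
  let μ : Measure (Metric.sphere (0 : EuclideanSpace ℂ (Fin n)) 1) :=
    ((volume : Measure (Fin n → ℂ)).toFinite).map (fun x => dir ζ0 (e x))
  have : IsFiniteMeasure μ := by
    exact Measure.isFiniteMeasure_map _ _
  obtain ⟨F, hFd, hFb, r, hrm, hr0, hr1, hae⟩ := incr_main (n := n) (by omega) μ
  have hnorm : ∀ x : Fin n → ℂ, ‖e x‖ ^ 2 = ∑ i, ‖x i‖ ^ 2 := by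
    intro x
    rw [EuclideanSpace.norm_sq_eq]
  have hball : ∀ z ∈ {z : Fin n → ℂ | ∑ i, ‖z i‖ ^ 2 < 1},
      e z ∈ Metric.ball (0 : EuclideanSpace ℂ (Fin n)) 1 := by
    intro z hz
    rw [mem_ball_zero_iff]
    have h1 : ‖e z‖ ^ 2 < 1 := by rw [hnorm]; exact hz
    nlinarith [norm_nonneg (e z)]
  refine ⟨fun x => F (e x), ?_, ⟨1, fun z hz => hFb _ (hball z hz)⟩, ?_⟩
  · have hed : Differentiable ℂ e :=
      (PiLp.continuousLinearEquiv 2 ℂ (fun _ : Fin n => ℂ)).symm.differentiable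
    exact hFd.comp hed.differentiableOn hball
  · have h1 := ae_of_ae_map hD.aemeasurable hae
    have h2 : ∀ᵐ x ∂(volume : Measure (Fin n → ℂ)), ∀ C : ℝ, ∃ m, C < ∑ k ∈ range m,
        ‖F ((r (k+1) : ℂ) • (dir ζ0 (e x)).1) - F ((r k : ℂ) • (dir ζ0 (e x)).1)‖ := by
      rw [← ae_toFinite (μ := (volume : Measure (Fin n → ℂ)))]
      exact h1
    have h3 : ∀ᵐ x ∂(volume : Measure (Fin n → ℂ)), x ≠ 0 := by
      simp [ae_iff, measure_singleton]
    filter_upwards [h2, h3] with x hx hx0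
    have hex : e x ≠ 0 := by
      intro h
      apply hx0
      have := congrArg (WithLp.ofLp) h
      simpa [e] using this
    have hs : Real.sqrt (∑ i, ‖x i‖ ^ 2) = ‖e x‖ := by
      rw [← hnorm, Real.sqrt_sq (norm_nonneg _)]
    have hcurve : ∀ t : ℝ, e ((((t / Real.sqrt (∑ i, ‖x i‖ ^ 2) : ℝ)) : ℂ) • x) =
        (t : ℂ) • (dir ζ0 (e x)).1 := by
      intro t
      rw [dir_coe ζ0 hex, hs, smul_smul]
      show WithLp.toLp 2 _ = _
      rw [WithLp.toLp_smul]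
      congr 1
      push_cast
      rw [div_eq_mul_inv]
    apply evar_top _ (Set.Ico (0:ℝ) 1) r hrm (fun k => ⟨hr0 k, hr1 k⟩)
    intro C
    obtain ⟨m, hm⟩ := hx C
    refine ⟨m, hm.trans_le (le_of_eq ?_)⟩
    refine Finset.sum_congr rfl (fun k _ => ?_)
    simp only [hcurve]

end Pool.Agent.Y259.Rad
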